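import Pool.Agent.Helper98.CP.RDefs
import Pool.Agent.Helper39.CJ.Lin

/-!
OR-5 of the computability modules for MP_82cbb9_al, Theorem A: membership of `z` in `L x + U'` is
decidable, by `LIN.lin_computable`.
-/

set_option autoImplicit false

namespace Pool.Agent.CP

open Stage Pool.Agent.CQ

namespace OR5

/-- a matrix whose kernel is a given subspace -/
theorem exists_matrix_ker {n : ℕ} (U : Submodule ℚ (Fin n → ℚ)) :
    ∃ (m : ℕ) (P : Matrix (Fin m) (Fin n) ℚ), ∀ v, P.mulVec v = 0 ↔ v ∈ U := by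
  let e : ((Fin n → ℚ) ⧸ U) ≃ₗ[ℚ] (Fin (Module.finrank ℚ ((Fin n → ℚ) ⧸ U)) → ℚ) :=
    (Module.finBasis ℚ ((Fin n → ℚ) ⧸ U)).equivFun
  refine ⟨_, LinearMap.toMatrix' (e.toLinearMap ∘ₗ U.mkQ), fun v => ?_⟩
  rw [LinearMap.toMatrix'_mulVec]
  simp

/-- the coordinates of a left inverse have a common denominator -/
theorem exists_common_den {ι : Type*} [Finite ι] (c : ι → ℚ) :
    ∃ D : ℕ, 0 < D ∧ ∀ i, ∃ z : ℤ, (D : ℚ) * c i = z := by
  classical
  have := Fintype.ofFinite ι
  refine ⟨∏ i, (c i).den, Finset.prod_pos fun i _ => (c i).den_pos, fun i => ?_⟩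
  refine ⟨(∏ j ∈ Finset.univ.erase i, ((c j).den : ℤ)) * (c i).num, ?_⟩
  rw [← Finset.mul_prod_erase Finset.univ (fun i => (c i).den) (Finset.mem_univ i)]
  push_cast
  have h : ((c i).den : ℚ) * c i = (c i).num := Rat.den_mul_eq_num (c i)
  calc ((c i).den : ℚ) * (∏ j ∈ Finset.univ.erase i, ((c j).den : ℚ)) * c i
      = (∏ j ∈ Finset.univ.erase i, ((c j).den : ℚ)) * (((c i).den : ℚ) * c i) := by ring
    _ = _ := by rw [h]

end OR5

theorem cp_NB {k n : ℕ} (S : Stage (FreeGroup (Fin k)) (Fin n → ℚ)) (hE : S.Eff) :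
    ComputablePred (fun p : (Fin n → ℚ) × (Fin n → ℚ) => S.NB p.1 p.2) := by
  classical
  obtain ⟨N, b, hbL, hbs, hbi⟩ : ∃ (N : ℕ) (b : Fin N → ((Fin n → ℚ) →ₗ[ℚ] (Fin n → ℚ))),
      (∀ i, b i ∈ S.L) ∧ Submodule.span ℚ (Set.range b) =
        Submodule.span ℚ (S.L : Set ((Fin n → ℚ) →ₗ[ℚ] (Fin n → ℚ))) ∧ LinearIndependent ℚ b := by
    obtain ⟨b, h⟩ := Submodule.exists_fun_fin_finrank_span_eq ℚ
      (S.L : Set ((Fin n → ℚ) →ₗ[ℚ] (Fin n → ℚ)))
    exact ⟨_, b, h⟩
  let f : (Fin N → ℚ) →ₗ[ℚ] ((Fin n → ℚ) →ₗ[ℚ] (Fin n → ℚ)) := Fintype.linearCombination ℚ b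
  have hf : ∀ v, f v = ∑ i, v i • b i := fun v => Fintype.linearCombination_apply ℚ b v
  have hinj : Function.Injective f := by
    rw [← LinearMap.ker_eq_bot]
    rw [LinearMap.ker_eq_bot']
    intro v hv
    rw [hf] at hv
    funext i
    exact (Fintype.linearIndependent_iff.1 hbi) v hv i
  have hrange : ∀ l ∈ S.L, ∃ v, f v = l := by
    intro l hl
    have h1 : l ∈ Submodule.span ℚ (Set.range b) := by
      rw [hbs]; exact Submodule.subset_span hl
    obtain ⟨v, hv⟩ := (Submodule.mem_span_range_iff_exists_fun ℚ).1 h1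
    exact ⟨v, by rw [hf]; exact hv⟩
  let L' : AddSubgroup (Fin N → ℚ) := S.L.comap f.toAddMonoidHom
  have hL' : ∀ v, v ∈ L' ↔ f v ∈ S.L := fun v => Iff.rfl
  -- the standard basis
  have hint : ∀ i, (Pi.single i 1 : Fin N → ℚ) ∈ L' := by
    intro i
    rw [hL', hf]
    have : ∑ j, (Pi.single i 1 : Fin N → ℚ) j • b j = b i := by
      rw [Finset.sum_eq_single i]
      · simp
      · intro j _ hj; simp [hj]
      · simp
    rw [this]; exact hbL i
  -- denominators
  obtain ⟨s, hs, hden⟩ := hE.den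
  obtain ⟨g, hg⟩ := f.exists_leftInverse_of_injective (LinearMap.ker_eq_bot.2 hinj)
  -- coordinates of `g`
  have hgc : ∀ (l : (Fin n → ℚ) →ₗ[ℚ] (Fin n → ℚ)) (i : Fin N),
      g l i = ∑ a, ∑ c, LinearMap.toMatrix' l a c * g (Matrix.toLin' (Matrix.single a c 1)) i := by
    intro l i
    have h1 : l = ∑ a, ∑ c, LinearMap.toMatrix' l a c • Matrix.toLin' (Matrix.single a c (1 : ℚ)) := by
      conv_lhs => rw [← Matrix.toLin'_toMatrix' l, Matrix.matrix_eq_sum_single (LinearMap.toMatrix' l)]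
      rw [map_sum]
      refine Finset.sum_congr rfl fun a _ => ?_
      rw [map_sum]
      refine Finset.sum_congr rfl fun c _ => ?_
      rw [← map_smul, Matrix.smul_single, smul_eq_mul, mul_one]
    conv_lhs => rw [h1]
    simp only [map_sum, map_smul, Finset.sum_apply, Pi.smul_apply, smul_eq_mul]
  obtain ⟨D, hD, hDc⟩ := OR5.exists_common_den (fun t : Fin N × Fin n × Fin n =>
    g (Matrix.toLin' (Matrix.single t.2.1 t.2.2 1)) t.1)
  have hden' : ∀ l ∈ L', ∃ j : ℕ, ∀ i, ∃ z : ℤ, (((D * s : ℕ)) : ℚ) ^ j * l i = z := by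
    intro v hv
    obtain ⟨j, hj⟩ := hden (f v) hv
    refine ⟨j + 1, fun i => ?_⟩
    have hv' : g (f v) = v := by
      have := congrArg (fun φ => φ v) hg
      simpa using this
    choose z hz using hj
    choose w hw using hDc
    refine ⟨(D : ℤ) ^ j * s * ∑ a, ∑ c, z a c * w (i, a, c), ?_⟩
    rw [← hv', hgc]
    push_cast
    have h1 : ∀ a c, (s : ℚ) ^ j * D * (LinearMap.toMatrix' (f v) a c *
        g (Matrix.toLin' (Matrix.single a c 1)) i) = z a c * w (i, a, c) := by
      intro a c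
      rw [← hz a c, ← hw (i, a, c)]
      ring
    calc ((D : ℚ) * s) ^ (j + 1) * ∑ a, ∑ c, (LinearMap.toMatrix' (f v) a c *
          g (Matrix.toLin' (Matrix.single a c 1)) i)
        = (D : ℚ) ^ j * s * ((s : ℚ) ^ j * D * ∑ a, ∑ c, (LinearMap.toMatrix' (f v) a c *
          g (Matrix.toLin' (Matrix.single a c 1)) i)) := by ring
      _ = _ := by
        congr 1
        rw [Finset.mul_sum]
        refine Finset.sum_congr rfl fun a _ => ?_
        rw [Finset.mul_sum]
        exact Finset.sum_congr rfl fun c _ => h1 a c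
  -- L' is r.e.
  have hre : REPred (fun v : Fin N → ℚ => v ∈ L') := by
    have h1 : Computable (fun v : Fin N → ℚ => LinearMap.toMatrix' (f v)) := by
      refine c_matrix (fun i j => ?_)
      have h2 : Computable (fun v : Fin N → ℚ => ∑ t, v t * LinearMap.toMatrix' (b t) i j) :=
        c_sum (fun t => c_qmul (c_app Computable.id t) (Computable.const _))
      refine h2.of_eq fun v => ?_
      rw [hf, map_sum, Matrix.sum_apply]
      refine Finset.sum_congr rfl fun t _ => ?_
      rw [map_smul, Matrix.smul_apply, smul_eq_mul]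
    refine (re_comp hE.L_re h1).of_eq fun v => ?_
    rw [Matrix.toLin'_toMatrix', hL']
  -- the matrix
  obtain ⟨m, P, hP⟩ := OR5.exists_matrix_ker S.U'
  have hlin := LIN.lin_computable (m := m) L' hint (D * s) (Nat.mul_pos hD hs) hden' hre
  let F : (Fin n → ℚ) × (Fin n → ℚ) → Matrix (Fin m) (Fin N) ℚ × (Fin m → ℚ) := fun p =>
    (Matrix.of fun i t => P.mulVec (b t p.1) i, P.mulVec p.2)
  have hF : Computable F := by
    refine Computable.pair ?_ (c_mulVec (Computable.const P) Computable.snd)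
    refine c_matrix (fun i t => ?_)
    have h1 : Computable (fun p : (Fin n → ℚ) × (Fin n → ℚ) => b t p.1) := by
      refine (c_mulVec (Computable.const (LinearMap.toMatrix' (b t))) Computable.fst).of_eq
        fun p => ?_
      rw [LinearMap.toMatrix'_mulVec]
    exact c_app (c_mulVec (Computable.const P) h1) i
  have key : ∀ p : (Fin n → ℚ) × (Fin n → ℚ),
      (∃ l ∈ L', (F p).1.mulVec l = (F p).2) ↔ S.NB p.1 p.2 := by
    rintro ⟨x, z⟩
    have h1 : ∀ v, (F (x, z)).1.mulVec v = P.mulVec (f v x) := by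
      intro v
      funext i
      simp only [F, Matrix.mulVec, dotProduct, Matrix.of_apply]
      rw [hf]
      simp only [LinearMap.sum_apply, LinearMap.smul_apply, Finset.sum_apply, Pi.smul_apply,
        smul_eq_mul, Finset.sum_mul, Finset.mul_sum]
      rw [Finset.sum_comm]
      refine Finset.sum_congr rfl fun a _ => Finset.sum_congr rfl fun c _ => ?_
      ring
    have h2 : ∀ v, (F (x, z)).1.mulVec v = (F (x, z)).2 ↔ z - f v x ∈ S.U' := by
      intro v
      rw [h1, ← hP, Matrix.mulVec_sub, sub_eq_zero]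
      exact ⟨fun h => h.symm, fun h => h.symm⟩
    constructor
    · rintro ⟨v, hv, h⟩
      exact ⟨f v, hv, (h2 v).1 h⟩
    · rintro ⟨l, hl, h⟩
      obtain ⟨v, rfl⟩ := hrange l hl
      exact ⟨v, hl, (h2 v).2 h⟩
  refine computable_of_re ((re_comp hlin.to_re hF).of_eq key) ?_
  exact (re_comp hlin.not.to_re hF).of_eq fun p => not_congr (key p)

end Pool.Agent.CP
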